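import Mathlib.Combinatorics.SimpleGraph.Acyclic
import Mathlib.Combinatorics.SimpleGraph.Metric
import Mathlib.Algebra.BigOperators.Finprod

/-!
# Two statements on groups acting on trees
-/

set_option autoImplicit false

namespace Pool.Agent.J4H59.PJ

/-- Job TREE -/
def TreeStatement : Prop :=
  ∀ (V : Type) (T : SimpleGraph V) (_ : T.IsTree) (B : Type) [Group B] [MulAction B V]
    (_ : ∀ (b : B) (x y : V), T.Adj x y → T.Adj (b • x) (b • y))
    (_ : ∀ (b : B) (x : V), b • x = x → b = 1)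
    (_ : ∀ (b : B) (x y : V), T.Adj x y → b • x = y → b • y = x → False),
    ∃ (J : Type) (a c : J → V) (σ : J → V → ℤ),
      (∀ x y : V, {q : J × B | σ q.1 (q.2⁻¹ • y) ≠ σ q.1 (q.2⁻¹ • x)}.Finite) ∧
      ∀ (M : Type) [AddCommGroup M] (f : V → M) (x y : V),
        ∑ᶠ q : J × B, (σ q.1 (q.2⁻¹ • y) - σ q.1 (q.2⁻¹ • x)) •
          (f (q.2 • c q.1) - f (q.2 • a q.1)) = f y - f x

/-- Job SHIFT -/
def ShiftStatement : Prop :=
  ∀ (V : Type) (T : SimpleGraph V) (_ : T.IsTree) (H : Type) [Group H] [MulAction H V]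
    (_ : ∀ (h : H) (x y : V), T.Adj x y → T.Adj (h • x) (h • y))
    (v₀ v₁ : V) (_ : T.Adj v₀ v₁) (s s' : H)
    (_ : T.dist v₀ (s • v₁) = T.dist v₁ (s • v₀) + 2)
    (_ : T.dist v₀ (s' • v₁) = T.dist v₁ (s' • v₀) + 2),
    T.dist v₀ ((s * s') • v₁) = T.dist v₁ ((s * s') • v₀) + 2 ∧
      T.dist v₀ ((s * s') • v₀) = T.dist v₀ (s • v₀) + T.dist v₀ (s' • v₀)

/-- Job HYP: a hyperbolic automorphism shifts an edge on the geodesic from `x₀` to its image -/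
def HypStatement : Prop :=
  ∀ (V : Type) (T : SimpleGraph V) (_ : T.IsTree) (H : Type) [Group H] [MulAction H V]
    (_ : ∀ (h : H) (x y : V), T.Adj x y → T.Adj (h • x) (h • y))
    (t : H) (_ : ∀ x : V, t • t • x ≠ x) (x₀ : V),
    ∃ v₀ v₁ : V, T.Adj v₀ v₁ ∧ T.dist v₀ (t • v₁) = T.dist v₁ (t • v₀) + 2 ∧
      ∀ n : H, n • x₀ = x₀ → n • t • x₀ = t • x₀ → n • v₀ = v₀ ∧ n • v₁ = v₁

end Pool.Agent.J4H59.PJ
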