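import Pool.Agent.J4H59.PJ.Proj
import Pool.Agent.J4H51.PJ.Tree

/-!
# Groups acting freely on trees
-/

set_option autoImplicit false
set_option linter.unusedSectionVars false

open scoped Classical

namespace Pool.Agent.J4H59.PJ

open Pool.Agent.Helper386.PD3 Pool.Agent.J4H59.PD Pool.Agent.J4H59.PE

noncomputable section

variable {G : Type} [Group G] {B : Subgroup G}

theorem qq_one {g : G} (hg : g ∈ B) : qq B (gof g) = qq B 1 := by
  apply Subtype.ext
  rw [qq_coe, qq_coe, ← gof_one]
  refine fn_ext fun y => ?_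
  rw [gof_ind0, gof_ind0]
  have h1 : (g : G ⧸ B) = ((1 : G) : G ⧸ B) := by
    rw [eq_comm, QuotientGroup.eq, inv_one, one_mul]
    exact hg
  rw [h1]

/-- the homomorphism to the columns -/
def Lam (B : Subgroup G) (J : Type) : ((J × B) →₀ ℤ) →+ (J →₀ RR G) :=
  Finsupp.liftAddHom fun q => (Finsupp.singleAddHom q.1).comp
    (zmultiplesHom (RR G) (gof (q.2 : G)))

theorem Lam_single {J : Type} (q : J × B) (z : ℤ) :
    Lam B J (Finsupp.single q z) = Finsupp.single q.1 (z • gof (q.2 : G)) := by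
  unfold Lam
  rw [Finsupp.liftAddHom_apply_single]
  rfl

theorem Lam_map {J : Type} (b : B) (F : (J × B) →₀ ℤ) :
    Lam B J (Finsupp.mapDomain (fun q => (q.1, b * q.2)) F) = gof (b : G) • Lam B J F := by
  induction F using Finsupp.induction_linear with
  | zero => rw [Finsupp.mapDomain_zero, map_zero, smul_zero]
  | add F F' h h' => rw [Finsupp.mapDomain_add, map_add, map_add, h, h', smul_add]
  | single q z =>
    rw [Finsupp.mapDomain_single, Lam_single, Lam_single, Finsupp.smul_single]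
    congr 1
    change z • gof ((b * q.2 : B) : G) = gof (b : G) * (z • gof (q.2 : G))
    rw [mul_smul_comm, ← gof_mul]
    rfl

theorem Lam_sum {J : Type} (u : J → RR G) (F : (J × B) →₀ ℤ) :
    ((Lam B J F).sum fun j r => r * u j) = F.sum fun q z => z • (gof (q.2 : G) * u q.1) := by
  have h1 : ∀ s : J →₀ RR G, (s.sum fun j r => r * u j) =
      (Finsupp.liftAddHom fun j => AddMonoidHom.mulRight (u j)) s := fun s => rfl
  rw [h1]
  induction F using Finsupp.induction_linear with
  | zero => rw [map_zero, map_zero, Finsupp.sum_zero_index]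
  | add F F' h h' =>
    rw [map_add, map_add, h, h', Finsupp.sum_add_index']
    · intro q
      exact zero_smul _ _
    · intro q z z'
      exact add_smul _ _ _
  | single q z =>
    rw [Lam_single, Finsupp.liftAddHom_apply_single]
    have h2 : ((Finsupp.single q z).sum fun (q : J × B) (z : ℤ) =>
        z • (gof (q.2 : G) * u q.1)) = z • (gof (q.2 : G) * u q.1) :=
      Finsupp.sum_single_index (zero_smul ℤ _)
    rw [h2]
    change (z • gof (q.2 : G)) * u q.1 = _
    rw [smul_mul_assoc]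

/-- Torsion-free groups acting freely on the vertices of a tree. -/
theorem pr1_of_tree (V : Type) (T : SimpleGraph V) (hT : T.IsTree) [MulAction B V]
    (hadj : ∀ (b : B) (x y : V), T.Adj x y → T.Adj (b • x) (b • y))
    (hfree : ∀ (b : B) (x : V), b • x = x → b = 1)
    (htf : ∀ (x : G) (k : ℤ), k ≠ 0 → x ^ k = 1 → x = 1) : Pr1 B := by
  have hinv : ∀ (b : B) (x y : V), T.Adj x y → b • x = y → b • y = x → False := by
    intro b x y hxy h1 h2
    have h3 : (b * b) • x = x := by rw [mul_smul, h1, h2]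
    have h4 := hfree _ _ h3
    have h5 : b = 1 := by
      apply Subtype.ext
      refine htf (b : G) 2 (by norm_num) ?_
      have h6 : ((b * b : B) : G) = 1 := congrArg Subtype.val h4
      rw [zpow_ofNat, pow_two]
      exact h6
    rw [h5, one_smul] at h1
    exact hxy.ne h1
  obtain ⟨J, a, c, σ, hfin, hid⟩ := Pool.Agent.J4H51.PJ.tree_data V T hT B hadj hfree hinv
  obtain ⟨v₀⟩ := hT.1.nonempty
  -- the component in the orbit
  have hex : ∀ v : V, ∃ b : B,
      b • (Quotient.out (Quotient.mk (MulAction.orbitRel B V) v)) = v := by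
    intro v
    have h1 : (MulAction.orbitRel B V).r (Quotient.out (Quotient.mk (MulAction.orbitRel B V) v)) v :=
      Quotient.exact (Quotient.out_eq _)
    obtain ⟨b, hb⟩ := (MulAction.orbitRel B V).symm h1
    exact ⟨b, hb⟩
  choose β hβ using hex
  have hβs : ∀ (b : B) (v : V), β (b • v) = b * β v := by
    intro b v
    have h1 : (Quotient.mk (MulAction.orbitRel B V) (b • v)) =
        Quotient.mk (MulAction.orbitRel B V) v := Quotient.sound ⟨b, rfl⟩
    have h2 := hβ (b • v)
    rw [h1] at h2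
    have h3 : ((b * β v)⁻¹ * β (b • v)) •
        (Quotient.out (Quotient.mk (MulAction.orbitRel B V) v)) =
        Quotient.out (Quotient.mk (MulAction.orbitRel B V) v) := by
      rw [mul_smul, h2, inv_smul_eq_iff, mul_smul, hβ]
    have h4 := hfree _ _ h3
    rw [inv_mul_eq_one] at h4
    exact h4.symm
  let f : V → RR G := fun v => gof ((β v : B) : G)
  have hf : ∀ (b : B) (v : V), f (b • v) = gof (b : G) * f v := by
    intro b v
    change gof ((β (b • v) : B) : G) = gof (b : G) * gof ((β v : B) : G)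
    rw [hβs, ← gof_mul]
    rfl
  let Φ : V → V → (J × B) →₀ ℤ := fun x y => Finsupp.ofSupportFinite
    (fun q => σ q.1 (q.2⁻¹ • y) - σ q.1 (q.2⁻¹ • x)) ((hfin x y).subset (by
      intro q hq
      exact sub_ne_zero.1 hq))
  have hΦ : ∀ x y q, Φ x y q = σ q.1 (q.2⁻¹ • y) - σ q.1 (q.2⁻¹ • x) := fun x y q => rfl
  have hΦadd : ∀ x y z, Φ x z = Φ x y + Φ y z := by
    intro x y z
    ext q
    rw [Finsupp.add_apply, hΦ, hΦ, hΦ]
    ring
  have hΦmap : ∀ (b : B) (x y : V), Φ (b • x) (b • y) =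
      Finsupp.mapDomain (fun q => (q.1, b * q.2)) (Φ x y) := by
    intro b x y
    let e : (J × B) ≃ (J × B) :=
      { toFun := fun q => (q.1, b * q.2)
        invFun := fun q => (q.1, b⁻¹ * q.2)
        left_inv := fun q => by simp
        right_inv := fun q => by simp }
    have h1 : Finsupp.mapDomain (fun q : J × B => (q.1, b * q.2)) (Φ x y) =
        Finsupp.mapDomain e (Φ x y) := rfl
    rw [h1]
    ext q
    rw [Finsupp.mapDomain_equiv_apply, hΦ]
    change _ = Φ x y (q.1, b⁻¹ * q.2)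
    rw [hΦ]
    change σ q.1 (q.2⁻¹ • b • y) - σ q.1 (q.2⁻¹ • b • x) =
      σ q.1 ((b⁻¹ * q.2)⁻¹ • y) - σ q.1 ((b⁻¹ * q.2)⁻¹ • x)
    rw [mul_inv_rev, inv_inv, mul_smul, mul_smul]
  refine ⟨J, fun b => Lam B J (Φ v₀ (b • v₀)),
    fun j => (f (c j) - f (a j)) * gof (((β v₀)⁻¹ : B) : G), fun b b' => ?_, fun b => ?_,
    fun j => ?_⟩
  · change Lam B J (Φ v₀ ((b * b') • v₀)) =
      Lam B J (Φ v₀ (b • v₀)) + gof (b : G) • Lam B J (Φ v₀ (b' • v₀))
    rw [hΦadd v₀ (b • v₀), map_add, mul_smul, hΦmap, Lam_map]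
  · rw [Lam_sum]
    have h1 : ((Φ v₀ (b • v₀)).sum fun q z =>
        z • (gof (q.2 : G) * ((f (c q.1) - f (a q.1)) * gof (((β v₀)⁻¹ : B) : G)))) =
        ((Φ v₀ (b • v₀)).sum fun q z => z • (f (q.2 • c q.1) - f (q.2 • a q.1))) *
          gof (((β v₀)⁻¹ : B) : G) := by
      rw [Finsupp.sum_mul]
      refine Finsupp.sum_congr fun q _ => ?_
      rw [hf, hf, ← mul_sub, ← mul_assoc, smul_mul_assoc]
    have h2 : ((Φ v₀ (b • v₀)).sum fun q z => z • (f (q.2 • c q.1) - f (q.2 • a q.1))) =
        f (b • v₀) - f v₀ := by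
      rw [← hid (RR G) f v₀ (b • v₀)]
      symm
      refine finsum_eq_sum_of_support_subset _ ?_
      intro q hq
      rw [Finset.mem_coe, Finsupp.mem_support_iff]
      intro h0
      apply hq
      change (σ q.1 (q.2⁻¹ • b • v₀) - σ q.1 (q.2⁻¹ • v₀)) • _ = 0
      rw [← hΦ, h0, zero_smul]
    rw [h1, h2, hf]
    change (gof (b : G) * gof ((β v₀ : B) : G) - gof ((β v₀ : B) : G)) * _ = _
    have h3 : gof ((β v₀ : B) : G) * gof (((β v₀)⁻¹ : B) : G) = (1 : RR G) := by
      rw [← gof_mul, Subgroup.coe_inv, mul_inv_cancel, gof_one]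
    rw [sub_mul, mul_assoc, h3, mul_one]
  · change qq B ((gof ((β (c j) : B) : G) - gof ((β (a j) : B) : G)) * _) = 0
    rw [sub_mul, ← gof_mul, ← gof_mul, map_sub, qq_one (B.mul_mem (β (c j)).2 ((β v₀)⁻¹ : B).2),
      qq_one (B.mul_mem (β (a j)).2 ((β v₀)⁻¹ : B).2), sub_self]

end

end Pool.Agent.J4H59.PJ
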