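import Pool.Agent.J4H59.PJ.ConeD
import Pool.Agent.J4H59.PJ.TreeB
import Pool.Agent.J4H59.PI.RayS
import Pool.Agent.J4H51.PJ.Shift

/-!
# Subgroups of the commensurator acting on trees
-/

set_option autoImplicit false
set_option linter.unusedSectionVars false

open scoped Classical

namespace Pool.Agent.J4H59.PJ

open Pool.Agent.Helper386.PD3 Pool.Agent.J4H59.PD Pool.Agent.J4H59.PE Pool.Agent.J4H59.PF
open Pool.Agent.J4H59.PI Pool.Agent.Helper158

noncomputable section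

variable {G : Type} [Group G] {N H : Subgroup G}

section act

variable {V : Type} {T : SimpleGraph V} [MulAction H V]

/-- coherent shifts -/
def Sh (T : SimpleGraph V) (v₀ v₁ : V) (s : H) : Prop :=
  T.dist v₀ (s • v₁) = T.dist v₁ (s • v₀) + 2

theorem sh_conj (hT : T.IsTree) (hadj : ∀ (h : H) (x y : V), T.Adj x y → T.Adj (h • x) (h • y))
    {v₀ v₁ : V} {n n' s : H} (hn0 : n • v₀ = v₀) (hn1 : n • v₁ = v₁) (hn0' : n' • v₀ = v₀)
    (hn1' : n' • v₁ = v₁) (hs : Sh T v₀ v₁ s) :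
    Sh T v₀ v₁ (n * s * n') ∧ T.dist v₀ ((n * s * n') • v₀) = T.dist v₀ (s • v₀) := by
  have iso := Pool.Agent.J4H51.PJ.isom hT hadj
  have h1 : ∀ x y : V, n • x = x → T.dist x (n • y) = T.dist x y := by
    intro x y hx
    conv_lhs => rw [← hx]
    exact iso n x y
  unfold Sh at *
  refine ⟨?_, ?_⟩
  · rw [mul_smul, mul_smul, mul_smul, mul_smul, hn0', hn1', h1 _ _ hn0, h1 _ _ hn1]
    exact hs
  · rw [mul_smul, mul_smul, hn0', h1 _ _ hn0]

theorem sh_pos (hT : T.IsTree) (hadj : ∀ (h : H) (x y : V), T.Adj x y → T.Adj (h • x) (h • y))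
    {v₀ v₁ : V} (he : T.Adj v₀ v₁) {s : H} (hs : Sh T v₀ v₁ s) : 0 < T.dist v₀ (s • v₀) := by
  have iso := Pool.Agent.J4H51.PJ.isom hT hadj
  by_contra hcon
  have h0 : T.dist v₀ (s • v₀) = 0 := by omega
  have h1 : v₀ = s • v₀ := (hT.1.dist_eq_zero_iff).1 h0
  have h2 : T.dist v₀ (s • v₁) = 1 := by
    conv_lhs => rw [h1]
    rw [iso]
    exact SimpleGraph.dist_eq_one_iff_adj.2 he
  unfold Sh at hs
  omega

/-- elements in the levels -/
theorem lvl_sh (hT : T.IsTree) (hadj : ∀ (h : H) (x y : V), T.Adj x y → T.Adj (h • x) (h • y))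
    {v₀ v₁ : V} (he : T.Adj v₀ v₁) (hNH : N ≤ H)
    (hst : ∀ h : H, (h : G) ∈ N → h • v₀ = v₀ ∧ h • v₁ = v₁) {t : H} (ht : Sh T v₀ v₁ t) (k : ℕ)
    (x : H) (hx : ((x : G) : G ⧸ N) ∈ lvl N (t : G) k) :
    T.dist v₀ (x • v₀) = k * T.dist v₀ (t • v₀) ∧ (1 ≤ k → Sh T v₀ v₁ x) := by
  induction k generalizing x with
  | zero =>
    have hx : ((x : G) : G ⧸ N) = ((1 : G) : G ⧸ N) := hx
    rw [eq_comm, QuotientGroup.eq, inv_one, one_mul] at hx
    refine ⟨?_, fun h => absurd h (by omega)⟩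
    rw [(hst x hx).1, SimpleGraph.dist_self, zero_mul]
  | succ k ih =>
    obtain ⟨n, hn, c', hc', h1⟩ := hx
    obtain ⟨a, ha, rfl⟩ := lvl_H hNH t.2 k hc'
    have h1 : ((x : G) : G ⧸ N) = ((n * ((t : G) * a) : G) : G ⧸ N) := h1
    rw [eq_comm, QuotientGroup.eq] at h1
    let n1 : H := ⟨n, hNH hn⟩
    let a1 : H := ⟨a, ha⟩
    let n2 : H := ⟨(n * ((t : G) * a))⁻¹ * x, hNH h1⟩
    have hx2 : x = n1 * (t * a1) * n2 := by
      apply Subtype.ext
      change (x : G) = n * ((t : G) * a) * ((n * ((t : G) * a))⁻¹ * x)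
      group
    obtain ⟨hn0, hn1⟩ := hst n1 hn
    obtain ⟨hm0, hm1⟩ := hst n2 h1
    obtain ⟨ih1, ih2⟩ := ih a1 hc'
    have h3 : Sh T v₀ v₁ (t * a1) ∧ T.dist v₀ ((t * a1) • v₀) =
        T.dist v₀ (t • v₀) + T.dist v₀ (a1 • v₀) := by
      by_cases hk : 1 ≤ k
      · exact Pool.Agent.J4H51.PJ.shift V T hT H hadj v₀ v₁ he t a1 ht (ih2 hk)
      · have hk0 : k = 0 := by omega
        subst hk0
        have ha1 : ((a : G) : G ⧸ N) = ((1 : G) : G ⧸ N) := hc'
        rw [eq_comm, QuotientGroup.eq, inv_one, one_mul] at ha1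
        obtain ⟨ha0, ha1'⟩ := hst a1 ha1
        have h4 := sh_conj hT hadj (n := 1) (n' := a1) (s := t) (one_smul _ _) (one_smul _ _)
          ha0 ha1' ht
        rw [one_mul] at h4
        refine ⟨h4.1, ?_⟩
        rw [h4.2, ha0, SimpleGraph.dist_self, add_zero]
    have h5 := sh_conj hT hadj (n := n1) (n' := n2) (s := t * a1) hn0 hn1 hm0 hm1 h3.1
    rw [← hx2] at h5
    refine ⟨?_, fun _ => h5.1⟩
    rw [h5.2, h3.2, ih1]
    ring

end act

/-- Groups in the commensurator which act on a tree. -/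
theorem main_T {n : ℕ} {w : G →* ℤˣ} {e0 e1 e2 e3 d0 d1 d2 : MR G n}
    (h : Full w e0 e1 e2 e3 d0 d1 d2) (hfgG : Group.FG G) (hG : AllDer (G := G) (RR G))
    (htf : ∀ (x : G) (k : ℤ), k ≠ 0 → x ^ k = 1 → x = 1)
    (hfg : N.FG) (hNinf : Infinite N) (hN : AllDer (G := N) (RR N))
    (hNH : N ≤ H) (hcm : ∀ h ∈ H, (As N h).index ≠ 0)
    {V : Type} {T : SimpleGraph V} (hT : T.IsTree) [MulAction H V]
    (hadj : ∀ (h : H) (x y : V), T.Adj x y → T.Adj (h • x) (h • y))
    {v₀ v₁ : V} (he : T.Adj v₀ v₁) (hst : ∀ h : H, (h : G) ∈ N → h • v₀ = v₀ ∧ h • v₁ = v₁)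
    {t : H} (ht : Sh T v₀ v₁ t) : H.index ≠ 0 := by
  have iso := Pool.Agent.J4H51.PJ.isom hT hadj
  have hpos := sh_pos hT hadj he ht
  have hlv := lvl_sh hT hadj he hNH hst ht
  have hd : ∀ k l c, c ∈ lvl N (t : G) k → c ∈ lvl N (t : G) l → k = l := by
    intro k l c hk hl
    obtain ⟨x, hx, rfl⟩ := lvl_H hNH t.2 k hk
    have h1 := (hlv k ⟨x, hx⟩ hk).1
    have h2 := (hlv l ⟨x, hx⟩ hl).1
    rw [h1] at h2
    exact Nat.eq_of_mul_eq_mul_right hpos h2
  refine core_D h hfgG htf hfg hNinf hN hNH hcm t.2 hd ?_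
  rintro B y hBH hbot ⟨T', hT'⟩
  let _ : MulAction B V := MulAction.compHom V (Subgroup.inclusion hBH)
  have hact : ∀ (b : B) (v : V), b • v = (Subgroup.inclusion hBH b) • v := fun b v => rfl
  refine allDer_pr1 h hG (pr1_of_tree V T hT ?_ ?_ htf)
  · intro b u v huv
    rw [hact, hact]
    exact hadj _ _ _ huv
  · intro b v hbv
    rw [hact] at hbv
    -- all cells are in a finite set
    have hfin : ∀ g : G, ∃ F : Set (G ⧸ N), F.Finite ∧ ∀ m : ℕ,
        g⁻¹ • ((y * (b : G) ^ m : G) : G ⧸ N) ∈ RD N (t : G) →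
        ((y * (b : G) ^ m : G) : G ⧸ N) ∈ F := by
      intro g
      by_cases hg : g⁻¹ * y ∈ H
      · let C : ℕ := T.dist v₀ ((⟨g⁻¹ * y, hg⟩ : H) • v) + T.dist v v₀
        refine ⟨(fun c => g • c) '' (⋃ k ∈ Finset.range (C + 1),
          (lvl N (t : G) k ∪ lvl N (t : G)⁻¹ k)), ?_, fun m hm =>
          ⟨g⁻¹ • ((y * (b : G) ^ m : G) : G ⧸ N), ?_, smul_inv_smul _ _⟩⟩
        · refine Set.Finite.image _ (Set.Finite.biUnion (Finset.finite_toSet _) fun k _ => ?_)
          exact (lvl_finite hNH hcm t.2 k).union (lvl_finite hNH hcm (H.inv_mem t.2) k)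
        · obtain ⟨k, hk⟩ := hm
          refine Set.mem_iUnion₂.2 ⟨k, ?_, hk⟩
          let b1 : H := Subgroup.inclusion hBH b
          have hbm : ∀ m : ℕ, b1 ^ m • v = v := by
            intro m
            induction m with
            | zero => rw [pow_zero, one_smul]
            | succ m ih => rw [pow_succ, mul_smul, hbv, ih]
          let x : H := ⟨g⁻¹ * y, hg⟩ * b1 ^ m
          have hxc : g⁻¹ • ((y * (b : G) ^ m : G) : G ⧸ N) = ((x : G) : G ⧸ N) := by
            change ((g⁻¹ * (y * (b : G) ^ m) : G) : G ⧸ N) = ((g⁻¹ * y * (b : G) ^ m : G) : G ⧸ N)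
            rw [mul_assoc]
          have h1 : T.dist v₀ (x • v₀) = k * T.dist v₀ (t • v₀) := by
            rcases hk with hk | hk
            · rw [hxc] at hk
              exact (hlv k x hk).1
            · rw [hxc] at hk
              have h2 := lvl_symm k hk
              rw [inv_inv] at h2
              have h3 := (hlv k x⁻¹ h2).1
              rw [← h3, SimpleGraph.dist_comm]
              have h4 := iso x v₀ (x⁻¹ • v₀)
              rw [smul_inv_smul] at h4
              exact h4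
          have h2 : T.dist v₀ (x • v₀) ≤ C := by
            have h3 := hT.1.dist_triangle (u := v₀) (v := (⟨g⁻¹ * y, hg⟩ : H) • v) (w := x • v₀)
            have h4 : T.dist ((⟨g⁻¹ * y, hg⟩ : H) • v) (x • v₀) = T.dist v v₀ := by
              change T.dist ((⟨g⁻¹ * y, hg⟩ : H) • v) ((⟨g⁻¹ * y, hg⟩ * b1 ^ m : H) • v₀) = _
              rw [mul_smul, iso]
              conv_lhs => rw [← hbm m]
              exact iso _ _ _
            rw [h4] at h3
            exact h3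
          rw [h1] at h2
          have h5 : k * 1 ≤ k * T.dist v₀ (t • v₀) := Nat.mul_le_mul_left k hpos
          rw [Finset.mem_range]
          omega
      · refine ⟨∅, Set.finite_empty, fun m hm => ?_⟩
        exfalso
        obtain ⟨k, hk⟩ := hm
        have h1 : ∃ h' ∈ H, g⁻¹ • ((y * (b : G) ^ m : G) : G ⧸ N) = ((h' : G) : G ⧸ N) := by
          rcases hk with hk | hk
          · exact lvl_H hNH t.2 k hk
          · exact lvl_H hNH (H.inv_mem t.2) k hk
        obtain ⟨h', hh', hh''⟩ := h1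
        have hh'' : ((g⁻¹ * (y * (b : G) ^ m) : G) : G ⧸ N) = (h' : G ⧸ N) := hh''
        rw [eq_comm, QuotientGroup.eq] at hh''
        apply hg
        have h1 : g⁻¹ * y = h' * (h'⁻¹ * (g⁻¹ * (y * (b : G) ^ m))) * ((b : G) ^ m)⁻¹ := by group
        rw [h1]
        exact H.mul_mem (H.mul_mem hh' (hNH hh'')) (H.inv_mem (H.pow_mem (hBH b.2) m))
    choose F hF hF' using hfin
    apply Subtype.ext
    refine eq_one_of_cells htf hbot b.2 y (F := ⋃ g ∈ T', F g)
      (Set.Finite.biUnion T'.finite_toSet fun g _ => hF g) fun m => ?_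
    obtain ⟨g, hg, h1⟩ := hT' ((b : G) ^ m) (B.pow_mem b.2 m)
    exact Set.mem_iUnion₂.2 ⟨g, hg, hF' g m h1⟩

end

end Pool.Agent.J4H59.PJ
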