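import Pool.Agent.J4H59.PI.Lvl
import Pool.Agent.J4H59.PF.Asc

/-!
# Cones from graded monoids of double cosets
-/

set_option autoImplicit false
set_option linter.unusedSectionVars false

open scoped Classical

namespace Pool.Agent.J4H59.PJ

open Pool.Agent.Helper386.PD3 Pool.Agent.J4H59.PD Pool.Agent.J4H59.PE Pool.Agent.J4H59.PF
open Pool.Agent.J4H59.PI Pool.Agent.Helper158

noncomputable section

variable {G : Type} [Group G] {N H : Subgroup G}

theorem lvl_inv {t : G} (k : ℕ) {n : G} (hn : n ∈ N) {c : G ⧸ N} (hc : c ∈ lvl N t k) :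
    n • c ∈ lvl N t k := by
  cases k with
  | zero =>
    have hc : c = ((1 : G) : G ⧸ N) := hc
    subst hc
    change ((n * 1 : G) : G ⧸ N) = ((1 : G) : G ⧸ N)
    rw [mul_one, eq_comm, QuotientGroup.eq, inv_one, one_mul]
    exact hn
  | succ k =>
    obtain ⟨n', hn', c', hc', rfl⟩ := hc
    exact ⟨n * n', N.mul_mem hn hn', c', hc', (mul_smul _ _ _).symm⟩

theorem lvl_mul {t : G} (i j : ℕ) {a b : G} (ha : (a : G ⧸ N) ∈ lvl N t i)
    (hb : (b : G ⧸ N) ∈ lvl N t j) : ((a * b : G) : G ⧸ N) ∈ lvl N t (i + j) := by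
  induction i generalizing a b with
  | zero =>
    have ha : (a : G ⧸ N) = ((1 : G) : G ⧸ N) := ha
    rw [eq_comm, QuotientGroup.eq, inv_one, one_mul] at ha
    rw [zero_add]
    exact lvl_inv j ha hb
  | succ i ih =>
    obtain ⟨n, hn, c', hc', h1⟩ := ha
    induction c' using QuotientGroup.induction_on with
    | H a' =>
      have h1 : (a : G ⧸ N) = ((n * (t * a') : G) : G ⧸ N) := h1
      rw [eq_comm, QuotientGroup.eq] at h1
      have h2 : ((a' * (((n * (t * a'))⁻¹ * a) * b) : G) : G ⧸ N) ∈ lvl N t (i + j) :=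
        ih hc' (lvl_inv j h1 hb)
      have h3 : ((a * b : G) : G ⧸ N) =
          n • t • ((a' * (((n * (t * a'))⁻¹ * a) * b) : G) : G ⧸ N) := by
        change ((a * b : G) : G ⧸ N) = ((n * (t * (a' * (((n * (t * a'))⁻¹ * a) * b))) : G) : G ⧸ N)
        congr 1
        group
      rw [h3, show i + 1 + j = i + j + 1 by ring]
      exact ⟨n, hn, _, h2, rfl⟩

theorem lvl_one {t : G} {n n' : G} (hn : n ∈ N) (hn' : n' ∈ N) :
    ((n * t * n' : G) : G ⧸ N) ∈ lvl N t 1 := by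
  refine ⟨n, hn, ((1 : G) : G ⧸ N), rfl, ?_⟩
  change ((n * t * n' : G) : G ⧸ N) = ((n * (t * 1) : G) : G ⧸ N)
  rw [eq_comm, QuotientGroup.eq]
  have h1 : (n * (t * 1))⁻¹ * (n * t * n') = n' := by group
  rw [h1]
  exact hn'

theorem lvl_symm {t : G} (i : ℕ) {a : G} (ha : (a : G ⧸ N) ∈ lvl N t i) :
    ((a⁻¹ : G) : G ⧸ N) ∈ lvl N t⁻¹ i := by
  induction i generalizing a with
  | zero =>
    have ha : (a : G ⧸ N) = ((1 : G) : G ⧸ N) := ha
    rw [eq_comm, QuotientGroup.eq, inv_one, one_mul] at ha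
    change ((a⁻¹ : G) : G ⧸ N) = ((1 : G) : G ⧸ N)
    rw [eq_comm, QuotientGroup.eq, inv_one, one_mul]
    exact N.inv_mem ha
  | succ i ih =>
    obtain ⟨n, hn, c', hc', h1⟩ := ha
    induction c' using QuotientGroup.induction_on with
    | H a' =>
      have h1 : (a : G ⧸ N) = ((n * (t * a') : G) : G ⧸ N) := h1
      rw [eq_comm, QuotientGroup.eq] at h1
      have h2 : a⁻¹ = ((n * (t * a'))⁻¹ * a)⁻¹ * (a'⁻¹ * (1 * t⁻¹ * n⁻¹)) := by group
      rw [h2]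
      exact lvl_inv (i + 1) (N.inv_mem h1) (lvl_mul i 1 (ih hc') (lvl_one N.one_mem (N.inv_mem hn)))

theorem lvl_symm_iff {t : G} (i : ℕ) {a : G} :
    ((a⁻¹ : G) : G ⧸ N) ∈ lvl N t⁻¹ i ↔ (a : G ⧸ N) ∈ lvl N t i := by
  constructor
  · intro h
    have h1 := lvl_symm i h
    rwa [inv_inv, inv_inv] at h1
  · exact lvl_symm i

theorem lvl_H (hNH : N ≤ H) {t : G} (ht : t ∈ H) (k : ℕ) {c : G ⧸ N} (hc : c ∈ lvl N t k) :
    ∃ h ∈ H, c = ((h : G) : G ⧸ N) := by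
  induction k generalizing c with
  | zero => exact ⟨1, H.one_mem, hc⟩
  | succ k ih =>
    obtain ⟨n, hn, c', hc', rfl⟩ := hc
    obtain ⟨h, hh, rfl⟩ := ih hc'
    exact ⟨n * (t * h), H.mul_mem (hNH hn) (H.mul_mem ht hh), rfl⟩

theorem lvl_finite (hNH : N ≤ H) (hcm : ∀ h ∈ H, (As N h).index ≠ 0) {t : G} (ht : t ∈ H)
    (k : ℕ) : (lvl N t k).Finite := by
  induction k with
  | zero => exact Set.finite_singleton _
  | succ k ih =>
    have h1 : ∀ c' ∈ lvl N t k, {c : G ⧸ N | ∃ n ∈ N, c = n • t • c'}.Finite := by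
      intro c' hc'
      obtain ⟨h, hh, rfl⟩ := lvl_H hNH ht k hc'
      exact orb_fin (h := t * h) (hcm _ (H.inv_mem (H.mul_mem ht hh)))
    refine (ih.biUnion h1).subset ?_
    rintro c ⟨n, hn, c', hc', rfl⟩
    exact Set.mem_iUnion₂.2 ⟨c', hc', n, hn, rfl⟩

/-- the cone, if the levels are disjoint -/
def coneD (N : Subgroup G) (t : G) (hd : ∀ k l c, c ∈ lvl N t k → c ∈ lvl N t l → k = l) :
    Cone N where
  t := t
  L := lvl N t
  hN := fun k n hn c hc => lvl_inv k hn hc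
  ht := fun k c hc => ⟨1, N.one_mem, c, hc, (one_smul _ _).symm⟩
  hd := hd

theorem hd_symm {t : G} (hd : ∀ k l c, c ∈ lvl N t k → c ∈ lvl N t l → k = l) :
    ∀ k l c, c ∈ lvl N t⁻¹ k → c ∈ lvl N t⁻¹ l → k = l := by
  intro k l c
  induction c using QuotientGroup.induction_on with
  | H a =>
    intro hk hl
    have hk' := lvl_symm k hk
    have hl' := lvl_symm l hl
    rw [inv_inv] at hk' hl'
    exact hd k l _ hk' hl'

theorem opp_D (hNH : N ≤ H) (hcm : ∀ h ∈ H, (As N h).index ≠ 0) {t : G} (ht : t ∈ H)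
    (hd : ∀ k l c, c ∈ lvl N t k → c ∈ lvl N t l → k = l) (g : G) :
    {c | c ∈ (coneD N t hd).R ∧ g • c ∈ (coneD N t⁻¹ (hd_symm hd)).R}.Finite := by
  have hkey : ∀ i j (x : G), (x : G ⧸ N) ∈ lvl N t i → ((g * x : G) : G ⧸ N) ∈ lvl N t⁻¹ j →
      ((g⁻¹ : G) : G ⧸ N) ∈ lvl N t (i + j) := by
    intro i j x hx hgx
    have h1 := lvl_symm j hgx
    rw [inv_inv] at h1
    have h2 := lvl_mul i j hx h1
    have h3 : x * (g * x)⁻¹ = g⁻¹ := by group
    rwa [h3] at h2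
  by_cases hg : ∃ m, ((g⁻¹ : G) : G ⧸ N) ∈ lvl N t m
  · obtain ⟨m, hm⟩ := hg
    refine ((Finset.range (m + 1)).finite_toSet.biUnion fun k _ =>
      lvl_finite hNH hcm ht k).subset ?_
    rintro c ⟨⟨i, hi⟩, ⟨j, hj⟩⟩
    refine Set.mem_iUnion₂.2 ⟨i, ?_, hi⟩
    induction c using QuotientGroup.induction_on with
    | H x =>
      have h1 := hd _ _ _ (hkey i j x hi hj) hm
      rw [Finset.coe_range, Set.mem_Iio]
      omega
  · convert Set.finite_empty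
    ext c
    rw [Set.mem_ofPred_eq, Set.mem_empty_iff_false, iff_false]
    rintro ⟨⟨i, hi⟩, ⟨j, hj⟩⟩
    induction c using QuotientGroup.induction_on with
    | H x => exact hg ⟨i + j, hkey i j x hi hj⟩

/-- the union of the two cones -/
def RD (N : Subgroup G) (t : G) : Set (G ⧸ N) := {c | ∃ k, c ∈ lvl N t k ∨ c ∈ lvl N t⁻¹ k}

/-- The main argument. -/
theorem core_D {n : ℕ} {w : G →* ℤˣ} {e0 e1 e2 e3 d0 d1 d2 : MR G n}
    (h : Full w e0 e1 e2 e3 d0 d1 d2) (hfgG : Group.FG G)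
    (htf : ∀ (x : G) (k : ℤ), k ≠ 0 → x ^ k = 1 → x = 1)
    (hfg : N.FG) (hNinf : Infinite N) (hN : AllDer (G := N) (RR N))
    (hNH : N ≤ H) (hcm : ∀ h ∈ H, (As N h).index ≠ 0) {t : G} (ht : t ∈ H)
    (hd : ∀ k l c, c ∈ lvl N t k → c ∈ lvl N t l → k = l)
    (hB : ∀ (B : Subgroup G) (y : G), B ≤ H → B ⊓ N = ⊥ →
      (∃ T : Finset G, ∀ b ∈ B, ∃ g ∈ T, g⁻¹ • ((y * b : G) : G ⧸ N) ∈ RD N t) →
      AllDer (G := G) (famF B).sub) :
    H.index ≠ 0 := by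
  intro hidx
  obtain ⟨d, x, hcl⟩ := exists_gens hfg
  have hxG : Subgroup.closure (Set.range fun i => (x i : G)) = N := by
    have h1 : (Set.range fun i => (x i : G)) = N.subtype '' (Set.range x) := by
      rw [← Set.range_comp]
      rfl
    rw [h1, ← MonoidHom.map_closure, hcl, ← MonoidHom.range_eq_map, Subgroup.range_subtype]
  obtain ⟨S, hS⟩ := Group.fg_def.1 hfgG
  let 𝒱 := VVq x w
  let rp' := coneD N t hd
  let rm := coneD N t⁻¹ (hd_symm hd)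
  have hp0 : ((1 : G) : G ⧸ N) ∈ rp'.L 0 := rfl
  have hm0 : ((1 : G) : G ⧸ N) ∈ rm.L 0 := rfl
  have hposne : rp'.R.Nonempty := ⟨_, 0, hp0⟩
  have hnegne : rm.R.Nonempty := ⟨_, 0, hm0⟩
  have hP : ResInner w (𝒱.V_le_MQ (le_refl N) hposne) :=
    resInner_cone 𝒱 rp' _ hxG (hcm _ ht) hp0 hposne
  have hQ : ResInner w (𝒱.V_le_MQ (le_refl N) hnegne) :=
    resInner_cone 𝒱 rm _ hxG (hcm _ (H.inv_mem ht)) hm0 hnegne
  have hRH : ∀ c ∈ rp'.R ∪ rm.R, ∃ h ∈ H, c = ((h : G) : G ⧸ N) := by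
    rintro c (⟨k, hk⟩ | ⟨k, hk⟩)
    · exact lvl_H hNH ht k hk
    · exact lvl_H hNH (H.inv_mem ht) k hk
  have hRp : ∀ c ∈ rp'.R ∪ rm.R, pu H c = ((1 : G) : G ⧸ H) := by
    intro c hc
    obtain ⟨h, hh, rfl⟩ := hRH c hc
    rw [pu_mk hNH, eq_comm, QuotientGroup.eq, inv_one, one_mul]
    exact hh
  have hM : AllDer (G := G) (𝒱.MQ (le_refl N) (rp'.R ∪ rm.R)) := by
    refine allDer_cone 𝒱 (fun _ => rfl) (VVq_fin x w) hNH _ hRp ?_ ?_ ?_ hS hcl hN hNinf htf ?_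
    · rintro n hn c (⟨k, hk⟩ | ⟨k, hk⟩)
      · exact Or.inl ⟨k, rp'.hN k n hn c hk⟩
      · exact Or.inr ⟨k, rm.hN k n hn c hk⟩
    · intro T
      have hinf : Infinite (G ⧸ H) := by
        by_contra hcon
        rw [not_infinite_iff_finite] at hcon
        exact Subgroup.index_ne_zero_of_finite hidx
      obtain ⟨a, ha⟩ := (T.finite_toSet.image fun g : G => (g : G ⧸ H)).exists_notMem
      refine ⟨((rp a : G) : G ⧸ N), fun g hg hcon => ha ⟨g, hg, ?_⟩⟩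
      have h1 := hRp _ hcon
      rw [pu_smul hNH, pu_mk hNH, mk_rp, inv_smul_eq_iff] at h1
      rw [h1]
      change (g : G ⧸ H) = ((g * 1 : G) : G ⧸ H)
      rw [mul_one]
    · intro u hu h hh
      obtain ⟨e, he, -, he'⟩ := Subgroup.exists_pow_mem_of_index_ne_zero (hcm _ (H.inv_mem hh))
        (⟨u, hu⟩ : N)
      refine ⟨e, he, ?_⟩
      have h1 : h⁻¹ * (((⟨u, hu⟩ : N) ^ e : N) : G) * h⁻¹⁻¹ ∈ N := he'
      have h2 : (h⁻¹ * u * h) ^ e = h⁻¹ * (((⟨u, hu⟩ : N) ^ e : N) : G) * h⁻¹⁻¹ := by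
        have h3 := conj_pow (a := h⁻¹) (b := u) (i := e)
        rw [inv_inv] at h3
        rw [h3, inv_inv]
        rfl
      rw [h2]
      exact h1
    · rintro E y hbot ⟨T, hT⟩
      refine hB _ y (BY_le y) hbot ⟨T, fun b hb => ?_⟩
      obtain ⟨g, hg, h1⟩ := hT b hb
      refine ⟨g, hg, ?_⟩
      rcases h1 with ⟨k, hk⟩ | ⟨k, hk⟩
      · exact ⟨k, Or.inl hk⟩
      · exact ⟨k, Or.inr hk⟩
  rw [← 𝒱.MQ_sup (le_refl N)] at hM
  have hI : AllDer (G := G) (Du w 𝒱.V) := glueR h (𝒱.MQ (le_refl N) rp'.R)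
    (𝒱.MQ (le_refl N) rm.R) 𝒱.V (𝒱.MQ_inf (le_refl N) hposne hnegne
    (opp_D hNH hcm ht hd)) (𝒱.V_le_MQ (le_refl N) hposne)
    (𝒱.V_le_MQ (le_refl N) hnegne) hP hQ hM
  refine contraQ x w hcl hI hN ?_ ?_
  · intro z k hk hz
    apply Subtype.ext
    exact htf z k hk (congrArg Subtype.val hz)
  · obtain ⟨z, hz⟩ := exists_ne (1 : N)
    exact ⟨z, hz⟩

end

end Pool.Agent.J4H59.PJ
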