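import Pool.Agent.J4H59.PJ.OneT

/-!
# Subgroups of the commensurator acting on trees: the final statement
-/

set_option autoImplicit false
set_option linter.unusedSectionVars false

open scoped Classical Pointwise

namespace Pool.Agent.J4H59.PJ

open Pool.Agent.Helper386.PD3 Pool.Agent.J4H59.PD Pool.Agent.J4H59.PE Pool.Agent.J4H59.PF
open Pool.Agent.J4H59.PG Pool.Agent.J4H59.PI Pool.Agent.Helper158

noncomputable section

variable {G : Type} [Group G] {ι : Type} {N H : Subgroup G} {A : ι → Subgroup G}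

theorem free_T [Finite ι] {n : ℕ} {w : G →* ℤˣ} {e0 e1 e2 e3 d0 d1 d2 : MR G n}
    (h : Full w e0 e1 e2 e3 d0 d1 d2) (hfgG : Group.FG G) (hG : AllDer (G := G) (RR G))
    (htf : ∀ (x : G) (k : ℤ), k ≠ 0 → x ^ k = 1 → x = 1) (hfp : FPd N A) (hAfg : ∀ i, (A i).FG)
    (hA : ∀ i, Nonempty (A i ≃* Multiplicative ℤ) ∨ AllDer (G := A i) (RR (A i)))
    {i : ι} (hi : A i ≠ ⊥) (hone : AllDer (G := A i) (RR (A i)))
    (hNH : N ≤ H) (hcm : H ≤ Subgroup.Commensurable.commensurator N)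
    {V : Type} {T : SimpleGraph V} (hT : T.IsTree) [MulAction H V]
    (hadj : ∀ (h : H) (x y : V), T.Adj x y → T.Adj (h • x) (h • y))
    {x₀ : V} (hfix : ∀ h : H, (h : G) ∈ N → h • x₀ = x₀)
    {t : H} (ht : ∀ x : V, t • t • x ≠ x) : A i = N ∧ H.index ≠ 0 := by
  obtain ⟨v₀, v₁, he, hsh, hst⟩ := Pool.Agent.J4H53.PJ.hyp V T hT H hadj t ht x₀
  have hti : (As N (t : G)⁻¹).index ≠ 0 := as_of_comm (Subgroup.inv_mem _ (hcm t.2))
  -- the elements of `N` in `N ⊓ t N t⁻¹` fix the edge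
  have hst' : ∀ g : H, (g : G) ∈ N → (t : G)⁻¹ * g * t ∈ N → g • v₀ = v₀ ∧ g • v₁ = v₁ := by
    intro g hg hgt
    refine hst g (hfix g hg) ?_
    have h1 : ((t⁻¹ * g * t : H) : G) ∈ N := hgt
    have h2 := hfix _ h1
    have h3 : g • t • x₀ = t • (t⁻¹ * g * t) • x₀ := by
      rw [← mul_smul, ← mul_smul]
      congr 1
      group
    rw [h3, h2]
  -- commensurating elements
  choose y hy j hj using fun k : ℕ => comm_of' htf hfp hAfg hA hi hone (m := ((t : G) ^ k))
    (fun j => at_of_as (hfp.le j) (as_of_comm (hcm (H.pow_mem t.2 k))))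
    (fun n hn j => at_of_as (hfp.le j) (as_of_comm (hcm
      (H.mul_mem (H.inv_mem (H.pow_mem t.2 k)) (hNH hn)))))
  have hfin : Finite (N ⧸ As N (t : G)⁻¹) := by
    have : (As N (t : G)⁻¹).FiniteIndex := ⟨hti⟩
    infer_instance
  have hpig : ∃ k l : ℕ, k < l ∧ j k = j l ∧ y k * (y l)⁻¹ ∈ N ∧
      (t : G)⁻¹ * (y k * (y l)⁻¹) * t ∈ N := by
    let f : ℕ → ι × (N ⧸ As N (t : G)⁻¹) := fun k =>
      (j k, (((⟨y k, hy k⟩ : N)⁻¹ : N) : N ⧸ As N (t : G)⁻¹))
    obtain ⟨k, l, hkl, hf⟩ := Finite.exists_ne_map_eq_of_infinite f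
    have hsym : ∀ k l : ℕ, f k = f l → j k = j l ∧ y k * (y l)⁻¹ ∈ N ∧
        (t : G)⁻¹ * (y k * (y l)⁻¹) * t ∈ N := by
      intro k l hf
      have h1 : j k = j l := congrArg Prod.fst hf
      have h2 : (((⟨y k, hy k⟩ : N)⁻¹ : N) : N ⧸ As N (t : G)⁻¹) =
          (((⟨y l, hy l⟩ : N)⁻¹ : N) : N ⧸ As N (t : G)⁻¹) := congrArg Prod.snd hf
      rw [QuotientGroup.eq, inv_inv] at h2
      have h3 : (t : G)⁻¹ * (y k * (y l)⁻¹) * (t : G)⁻¹⁻¹ ∈ N := h2
      rw [inv_inv] at h3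
      exact ⟨h1, N.mul_mem (hy k) (N.inv_mem (hy l)), h3⟩
    rcases lt_or_gt_of_ne hkl with h1 | h1
    · exact ⟨k, l, h1, hsym k l hf⟩
    · exact ⟨l, k, h1, hsym l k hf.symm⟩
  obtain ⟨k, l, hkl, hjkl, hn, hnt⟩ := hpig
  obtain ⟨m, rfl⟩ : ∃ m : ℕ, l = k + (m + 1) := ⟨l - k - 1, by omega⟩
  set l := k + (m + 1) with hl
  -- the element of the commensurator of the factor
  have hx1 : Subgroup.Commensurable (cc (((t : G) ^ k)⁻¹ * y k) (A (j k))) (A i) := hj k
  have hx2 : Subgroup.Commensurable (cc (((t : G) ^ l)⁻¹ * y l) (A (j k))) (A i) := by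
    rw [hjkl]
    exact hj l
  have hs : (((t : G) ^ k)⁻¹ * y k) * (((t : G) ^ l)⁻¹ * y l)⁻¹ ∈
      Subgroup.Commensurable.commensurator (A i) := by
    rw [mem_comm]
    have h4 := cc_comm (x := (((t : G) ^ k)⁻¹ * y k) * (((t : G) ^ l)⁻¹ * y l)⁻¹) hx2.symm
    rw [← cc_mul, inv_mul_cancel_right] at h4
    exact h4.trans hx1
  let z : H := ⟨y k * (y l)⁻¹, hNH hn⟩
  let s : H := (t ^ k)⁻¹ * (z * t ^ (m + 1)) * t ^ k
  have hsG : (s : G) = (((t : G) ^ k)⁻¹ * y k) * (((t : G) ^ l)⁻¹ * y l)⁻¹ := by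
    change ((t : G) ^ k)⁻¹ * (y k * (y l)⁻¹ * (t : G) ^ (m + 1)) * (t : G) ^ k = _
    have h1 : (t : G) ^ l = (t : G) ^ (m + 1) * (t : G) ^ k := by
      rw [← pow_add, hl]
      congr 1
      omega
    rw [h1]
    group
  have hzs : Sh T v₀ v₁ (z * t ^ (m + 1)) := by
    obtain ⟨hz0, hz1⟩ := hst' z hn hnt
    have h1 := (sh_conj hT hadj (n := z) (n' := 1) (s := t ^ (m + 1)) hz0 hz1 (one_smul _ _)
      (one_smul _ _) (sh_pow hT hadj he hsh m).1).1
    rw [mul_one] at h1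
    exact h1
  have hshyp : ∀ x : V, s • s • x ≠ x := by
    intro x hx
    refine sh_hyp hT hadj he hzs (t ^ k • x) ?_
    have h1 : (z * t ^ (m + 1)) • (z * t ^ (m + 1)) • t ^ k • x = t ^ k • s • s • x := by
      simp only [← mul_smul]
      congr 1
      change z * t ^ (m + 1) * (z * t ^ (m + 1) * t ^ k) = t ^ k * ((t ^ k)⁻¹ *
        (z * t ^ (m + 1)) * t ^ k * ((t ^ k)⁻¹ * (z * t ^ (m + 1)) * t ^ k))
      group
    rw [h1, hx]
  -- the commensurator of the factor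
  set J := Subgroup.Commensurable.commensurator (A i) ⊓ H with hJ
  have hJH : J ≤ H := inf_le_right
  have hAJ : A i ≤ J := by
    refine le_inf (fun a ha => ?_) ((hfp.le i).trans hNH)
    rw [mem_comm]
    have h1 : cc a (A i) = A i := by
      ext z
      rw [mem_cc]
      constructor
      · intro h
        have h2 : z = a * (a⁻¹ * z * a) * a⁻¹ := by group
        rw [h2]
        exact (A i).mul_mem ((A i).mul_mem ha h) ((A i).inv_mem ha)
      · intro h
        exact (A i).mul_mem ((A i).mul_mem ((A i).inv_mem ha) h) ha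
    rw [h1]
  have hsJ : (s : G) ∈ J := ⟨by rw [hsG]; exact hs, s.2⟩
  let _ : MulAction J V := MulAction.compHom V (Subgroup.inclusion hJH)
  have hidx : J.index ≠ 0 := by
    refine one_T (V := V) (T := T) (t := ⟨s, hsJ⟩) (x₀ := x₀) h hfgG hG htf (hAfg i) hi hone hAJ
      inf_le_left hT (fun b u v huv => hadj (Subgroup.inclusion hJH b) u v huv)
      (fun b hb => hfix (Subgroup.inclusion hJH b) (hfp.le i hb)) (fun x => hshyp x)
  have hNA : N ≤ A i := by
    refine le_of_relIndex htf hfp hi ?_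
    have h1 : J.relIndex N ≠ 0 := by
      rw [← Subgroup.relIndex_top_right] at hidx
      exact mt (Subgroup.relIndex_eq_zero_of_le_right le_top) hidx
    rw [← Subgroup.inf_relIndex_right] at h1
    refine mt (Subgroup.relIndex_eq_zero_of_le_left ?_) h1
    rintro x ⟨hx, hxN⟩
    exact comm_inf htf hfp hi hxN hx.1
  exact ⟨le_antisymm (hfp.le i) hNA, fun h0 => hidx (Nat.eq_zero_of_zero_dvd (by
    rw [← h0]
    exact Subgroup.index_dvd_of_le hJH))⟩

variable {P : ℕ → Type} [∀ i, AddCommGroup (P i)]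
  [∀ i, Module (MonoidAlgebra ℤ G) (P i)] {d : ∀ i, P (i + 1) →ₗ[MonoidAlgebra ℤ G] P i}
  {ε : P 0 →+ ℤ}

theorem main_Tree (hR : Reso P d ε) (m : ℕ) (hm : ∀ i, m < i → Subsingleton (P i))
    [∀ i, Module.Finite (MonoidAlgebra ℤ G) (P i)]
    [∀ i, Module.Projective (MonoidAlgebra ℤ G) (P i)]
    (hcoh : ∀ i, i ≠ 3 → Subsingleton (groupCohomology (Rep.leftRegular ℤ G) i))
    (htop : Nonempty (groupCohomology (Rep.leftRegular ℤ G) 3 ≃+ ℤ))
    (N : Subgroup G) (ι : Type) [Finite ι] (A : ι → Subgroup G)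
    (hinj : Function.Injective (Monoid.CoprodI.lift fun i => (A i).subtype))
    (hrange : (Monoid.CoprodI.lift fun i => (A i).subtype).range = N)
    (hAfg : ∀ i, (A i).FG)
    (hA : ∀ i, Nonempty (A i ≃* Multiplicative ℤ) ∨
      Subsingleton (groupCohomology (Rep.leftRegular ℤ (A i)) 1))
    (i : ι) (hi : A i ≠ ⊥) (hone : Subsingleton (groupCohomology (Rep.leftRegular ℤ (A i)) 1))
    (hNH : N ≤ H) (hcm : H ≤ Subgroup.Commensurable.commensurator N)
    {V : Type} {T : SimpleGraph V} (hT : T.IsTree) [MulAction H V]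
    (hadj : ∀ (h : H) (x y : V), T.Adj x y → T.Adj (h • x) (h • y))
    {x₀ : V} (hfix : ∀ h : H, (h : G) ∈ N → h • x₀ = x₀)
    {t : H} (ht : ∀ x : V, t • t • x ≠ x) : A i = N ∧ H.FiniteIndex := by
  have hF : Fintype ι := Fintype.ofFinite ι
  have hle : ∀ i, A i ≤ N := by
    intro i a ha
    rw [← hrange]
    exact ⟨Monoid.CoprodI.of (M := fun i => A i) (i := i) ⟨a, ha⟩,
      Monoid.CoprodI.lift_of (fi := fun i => (A i).subtype) _⟩
  have hfree : IsFree fun i => (A i).subgroupOf N := by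
    have h1 : N.subtype.comp (Monoid.CoprodI.lift fun i => Subgroup.inclusion (hle i)) =
        Monoid.CoprodI.lift fun i => (A i).subtype := by
      refine Monoid.CoprodI.ext_hom _ _ fun i => ?_
      refine MonoidHom.ext fun a => ?_
      change ((Monoid.CoprodI.lift (fun i => Subgroup.inclusion (hle i))
        (Monoid.CoprodI.of a) : N) : G) =
        Monoid.CoprodI.lift (fun i => (A i).subtype) (Monoid.CoprodI.of a)
      rw [Monoid.CoprodI.lift_of, Monoid.CoprodI.lift_of]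
      rfl
    refine ⟨fun i => A i, fun i => inferInstance, fun i => Subgroup.inclusion (hle i), fun i => ?_,
      ?_, ?_⟩
    · ext x
      rw [Subgroup.mem_subgroupOf]
      constructor
      · rintro ⟨a, rfl⟩
        exact a.2
      · intro hx
        exact ⟨⟨x, hx⟩, rfl⟩
    · intro x y hxy
      apply hinj
      rw [← h1]
      change ((Monoid.CoprodI.lift (fun i => Subgroup.inclusion (hle i)) x : N) : G) =
        ((Monoid.CoprodI.lift (fun i => Subgroup.inclusion (hle i)) y : N) : G)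
      rw [hxy]
    · intro x
      have h2 : (x : G) ∈ (Monoid.CoprodI.lift fun i => (A i).subtype).range := by
        rw [hrange]
        exact x.2
      obtain ⟨v, hv⟩ := h2
      refine ⟨v, Subtype.ext ?_⟩
      rw [← hv, ← h1]
      rfl
  obtain ⟨w, n, e0, e1, e2, e3, d0, d1, d2, hFull⟩ := exists_full hR m hm hcoh htop
  have htf := tf_int hR m hm
  have hfp : FPd N A := fpd_of htf hle hfree
  have hA' : ∀ i, Nonempty (A i ≃* Multiplicative ℤ) ∨ AllDer (G := A i) (RR (A i)) := fun i =>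
    (hA i).imp_right allDer_RR
  have hfgG : Group.FG G := fg_of_low hFull.low
  have hGD : AllDer (G := G) (RR G) := allDer_RR (hcoh 1 (by norm_num))
  have h1 := free_T hFull hfgG hGD htf hfp hAfg hA' hi (allDer_RR hone) hNH hcm hT hadj hfix ht
  exact ⟨h1.1, ⟨h1.2⟩⟩

end

end Pool.Agent.J4H59.PJ
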