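import Pool.Agent.J4H59.PJ.AsmT
import Pool.Agent.J4H59.PI.MainZ
import Pool.Agent.J4H53.PJ.Hyp

/-!
# Subgroups of the commensurator acting on trees: elliptic subgroups
-/

set_option autoImplicit false
set_option linter.unusedSectionVars false

open scoped Classical Pointwise

namespace Pool.Agent.J4H59.PJ

open Pool.Agent.Helper386.PD3 Pool.Agent.J4H59.PD Pool.Agent.J4H59.PE Pool.Agent.J4H59.PF
open Pool.Agent.J4H59.PG Pool.Agent.J4H59.PI Pool.Agent.Helper158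

noncomputable section

/-- transport of structure -/
theorem allDer_equiv {C D : Type} [Group C] [Group D] (e : C ≃* D)
    (hC : AllDer (G := C) (RR C)) : AllDer (G := D) (RR D) := by
  intro δ hδ
  obtain ⟨F, hF⟩ : ∃ F : C → RR C, ∀ (g x : C), (F g).coeff x = (δ (e g)).coeff (e x) := by
    refine ⟨fun g => toRR (fun x => (δ (e g)).coeff (e x)) ?_, fun g x => rfl⟩
    exact (rr_supp_finite (δ (e g))).preimage e.injective.injOn
  obtain ⟨μ, hμ⟩ := hC F (by
    intro g h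
    refine rr_ext fun x => ?_
    have h1 : (gof g • F h).coeff x = (F h).coeff (g⁻¹ * x) := coeff_gof_mul g (F h) x
    have h2 : (gof (e g) • δ (e h)).coeff (e x) = (δ (e h)).coeff ((e g)⁻¹ * e x) :=
      coeff_gof_mul (e g) _ (e x)
    rw [rr_add_coeff, h1, hF, hF, hF, map_mul e g h, hδ, rr_add_coeff, h2, map_mul e, map_inv e])
  have hfin2 : {d : D | μ.coeff (e.symm d) ≠ 0}.Finite :=
    (rr_supp_finite μ).preimage e.symm.injective.injOn
  refine ⟨toRR (fun d : D => μ.coeff (e.symm d)) hfin2, fun g => rr_ext fun x => ?_⟩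
  have h1 : (gof g • toRR (fun d : D => μ.coeff (e.symm d)) hfin2).coeff x =
      μ.coeff (e.symm (g⁻¹ * x)) := coeff_gof_mul g _ x
  have h2 := hF (e.symm g) (e.symm x)
  rw [e.apply_symm_apply, e.apply_symm_apply] at h2
  have h3 : (gof (e.symm g) • μ).coeff (e.symm x) = μ.coeff ((e.symm g)⁻¹ * e.symm x) :=
    coeff_gof_mul (e.symm g) μ (e.symm x)
  rw [rr_sub_coeff, h1, toRR_coeff, ← h2, hμ, rr_sub_coeff, h3, map_mul e.symm, map_inv e.symm]

variable {G : Type} [Group G] {N H : Subgroup G}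

section act

variable {V : Type} {T : SimpleGraph V} [MulAction H V]

theorem sh_pow (hT : T.IsTree) (hadj : ∀ (h : H) (x y : V), T.Adj x y → T.Adj (h • x) (h • y))
    {v₀ v₁ : V} (he : T.Adj v₀ v₁) {u : H} (hu : Sh T v₀ v₁ u) (k : ℕ) :
    Sh T v₀ v₁ (u ^ (k + 1)) ∧ T.dist v₀ (u ^ (k + 1) • v₀) = (k + 1) * T.dist v₀ (u • v₀) := by
  induction k with
  | zero =>
    rw [zero_add, pow_one, one_mul]
    exact ⟨hu, rfl⟩
  | succ k ih =>
    have h1 := Pool.Agent.J4H51.PJ.shift V T hT H hadj v₀ v₁ he (u ^ (k + 1)) u ih.1 hu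
    rw [← pow_succ] at h1
    refine ⟨h1.1, ?_⟩
    rw [h1.2, ih.2]
    ring

theorem sh_hyp (hT : T.IsTree) (hadj : ∀ (h : H) (x y : V), T.Adj x y → T.Adj (h • x) (h • y))
    {v₀ v₁ : V} (he : T.Adj v₀ v₁) {u : H} (hu : Sh T v₀ v₁ u) (y : V) : u • u • y ≠ y := by
  intro hy
  have iso := Pool.Agent.J4H51.PJ.isom hT hadj
  have h1 : ∀ q : ℕ, (u ^ (2 * q)) • y = y := by
    intro q
    induction q with
    | zero => rw [mul_zero, pow_zero, one_smul]
    | succ q ih =>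
      have h2 : 2 * (q + 1) = 2 * q + 1 + 1 := by ring
      rw [h2, pow_succ, pow_succ, mul_smul, mul_smul, hy, ih]
  obtain ⟨q, hq⟩ : ∃ q : ℕ, q = T.dist v₀ y := ⟨_, rfl⟩
  have h2 := (sh_pow hT hadj he hu (2 * q + 1)).2
  have h3 := h1 (q + 1)
  have h4 : 2 * q + 1 + 1 = 2 * (q + 1) := by ring
  rw [← h4] at h3
  have h5 := hT.1.dist_triangle (u := v₀) (v := y) (w := u ^ (2 * q + 1 + 1) • v₀)
  have h6 : T.dist y (u ^ (2 * q + 1 + 1) • v₀) = T.dist y v₀ := by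
    conv_lhs => rw [← h3]
    exact iso _ _ _
  rw [h6, h2, SimpleGraph.dist_comm (u := y), ← hq] at h5
  have h7 := sh_pos hT hadj he hu
  have h8 : (2 * q + 1 + 1) * 1 ≤ (2 * q + 1 + 1) * T.dist v₀ (u • v₀) :=
    Nat.mul_le_mul_left _ h7
  have h9 : ((2 * q + 1 : ℕ) + 1) * T.dist v₀ (u • v₀) ≤ q + q := by exact_mod_cast h5
  omega

end act

/-- the subgroup of `N` which is conjugated into `N` by `s` -/
theorem exists_sub {s : G} (hs : (As N s).index ≠ 0) : ∃ N₀ : Subgroup G, N₀ ≤ N ∧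
    N₀.relIndex N ≠ 0 ∧ (∀ x ∈ N₀, s * x * s⁻¹ ∈ N) ∧
    (AllDer (G := N) (RR N) → AllDer (G := N₀) (RR N₀)) := by
  refine ⟨(As N s).map N.subtype, ?_, ?_, ?_, fun hN => ?_⟩
  · rintro _ ⟨x, -, rfl⟩
    exact x.2
  · rw [Subgroup.relIndex, Subgroup.subgroupOf, Subgroup.comap_map_eq_self_of_injective
      N.subtype_injective]
    exact hs
  · rintro _ ⟨x, hx, rfl⟩
    exact hx
  · exact allDer_equiv ((As N s).equivMapOfInjective N.subtype N.subtype_injective)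
      (allDer_fi hN _ hs)

/-- Groups in the commensurator which act on a tree without a fixed point. -/
theorem one_T {n : ℕ} {w : G →* ℤˣ} {e0 e1 e2 e3 d0 d1 d2 : MR G n}
    (h : Full w e0 e1 e2 e3 d0 d1 d2) (hfgG : Group.FG G) (hG : AllDer (G := G) (RR G))
    (htf : ∀ (x : G) (k : ℤ), k ≠ 0 → x ^ k = 1 → x = 1)
    (hfg : N.FG) (hne : N ≠ ⊥) (hN : AllDer (G := N) (RR N))
    (hNH : N ≤ H) (hcm : H ≤ Subgroup.Commensurable.commensurator N)
    {V : Type} {T : SimpleGraph V} (hT : T.IsTree) [MulAction H V]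
    (hadj : ∀ (h : H) (x y : V), T.Adj x y → T.Adj (h • x) (h • y))
    {x₀ : V} (hfix : ∀ h : H, (h : G) ∈ N → h • x₀ = x₀)
    {t : H} (ht : ∀ x : V, t • t • x ≠ x) : H.index ≠ 0 := by
  obtain ⟨v₀, v₁, he, hsh, hst⟩ := Pool.Agent.J4H53.PJ.hyp V T hT H hadj t ht x₀
  have hti : (t : G)⁻¹ ∈ Subgroup.Commensurable.commensurator N :=
    Subgroup.inv_mem _ (hcm t.2)
  obtain ⟨N₀, hN₀, hfi, hconj, hAll⟩ := exists_sub (as_of_comm hti)
  have hNinf : Infinite N := inf_of_ne_bot htf hne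
  have hN₀ne : N₀ ≠ ⊥ := by
    intro h1
    rw [h1, Subgroup.relIndex_bot_left] at hfi
    exact hfi Nat.card_eq_zero_of_infinite
  have hco : Subgroup.Commensurable N₀ N := by
    refine ⟨hfi, ?_⟩
    rw [Subgroup.relIndex_eq_one.2 hN₀]
    exact one_ne_zero
  have hcm0 : ∀ h ∈ H, (As N₀ h).index ≠ 0 := by
    intro g hg
    refine as_of_comm ?_
    rw [hco.eq]
    exact hcm hg
  refine main_T h hfgG hG htf (fg_of_fi hfg hN₀ hfi) (inf_of_ne_bot htf hN₀ne) (hAll hN)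
    (hN₀.trans hNH) hcm0 hT hadj he (fun g hg => ?_) hsh
  refine hst g (hfix g (hN₀ hg)) ?_
  have h1 : ((t⁻¹ * g * t : H) : G) ∈ N := by
    have h2 := hconj g hg
    rw [inv_inv] at h2
    exact h2
  have h2 := hfix _ h1
  have h3 : g • t • x₀ = t • (t⁻¹ * g * t) • x₀ := by
    rw [← mul_smul, ← mul_smul]
    congr 1
    group
  rw [h3, h2]

end

end Pool.Agent.J4H59.PJ
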