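import Pool.Agent.J4H59.PE.S1

/-!
# Derivations with values in the functions on the cosets of a subgroup of dimension one
-/

set_option autoImplicit false
set_option linter.unusedSectionVars false

open scoped Classical Matrix

namespace Pool.Agent.J4H59.PJ

open Pool.Agent.Helper386.PD3 Pool.Agent.J4H59.PD Pool.Agent.J4H59.PE

noncomputable section

variable {G : Type} [Group G]

/-- The augmentation ideal of `B` is projective, in terms of a derivation. -/
def Pr1 (B : Subgroup G) : Prop :=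
  ∃ (J : Type) (p : B → J →₀ RR G) (u : J → RR G),
    (∀ b b' : B, p (b * b') = p b + gof (b : G) • p b') ∧
    (∀ b : B, ((p b).sum fun j r => r * u j) = gof (b : G) - 1) ∧
    ∀ j, qq B (u j) = 0

/-- sums over the support -/
def fs (B : Subgroup G) {M : Type} [AddCommGroup M] (K : G ⧸ B → M) : (famF B).sub →+ M :=
  AddMonoidHom.mk' (fun m => ∑ᶠ y, (m : Fn B) y • K y) (by
    intro m m'
    have hf : ∀ m : (famF B).sub, (Function.support fun y => (m : Fn B) y • K y).Finite := by
      intro m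
      refine (show (supp (m : Fn B)).Finite from m.2).subset ?_
      intro y hy h
      apply hy
      change (m : Fn B) y • _ = 0
      rw [h, zero_smul]
    rw [← finsum_add_distrib (hf m) (hf m')]
    exact finsum_congr fun y => by rw [Submodule.coe_add, PD.add_apply, add_smul])

theorem fs_gof (B : Subgroup G) {M : Type} [AddCommGroup M] (K : G ⧸ B → M) (g : G) :
    fs B K (qq B (gof g)) = K (g : G ⧸ B) := by
  change ∑ᶠ y, (gof g • ind0 B) y • K y = _
  rw [finsum_eq_single _ (g : G ⧸ B)]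
  · rw [gof_ind0, if_pos rfl, one_smul]
  · intro y hy
    rw [gof_ind0, if_neg hy, zero_smul]

theorem add_ext' {M : Type} [AddCommGroup M] {f f' : RR G →+ M}
    (h : ∀ g, f (gof g) = f' (gof g)) (x : RR G) : f x = f' x := by
  induction x using rr_ind with
  | h1 g => exact h g
  | h2 a b ha hb => rw [map_add, map_add, ha, hb]
  | h3 a ha => rw [map_neg, map_neg, ha]

variable {B : Subgroup G} {n : ℕ} {w : G →* ℤˣ}

theorem mem_rp (g : G) : (rp (g : G ⧸ B))⁻¹ * g ∈ B := by
  rw [← QuotientGroup.eq, mk_rp]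

theorem mem_rp2 (h : G) (y : G ⧸ B) : (rp (h • y))⁻¹ * (h * rp y) ∈ B := by
  rw [← QuotientGroup.eq, mk_rp]
  conv_lhs => rw [← mk_rp y]
  rfl

/-- The vanishing result. -/
theorem allDer_pr1 {e0 e1 e2 e3 d0 d1 d2 : MR G n} (h : Full w e0 e1 e2 e3 d0 d1 d2)
    (hG : AllDer (G := G) (RR G)) (hB : Pr1 B) : AllDer (G := G) (famF B).sub := by
  obtain ⟨J, p, u, hp, hpu, hu⟩ := hB
  -- the extension of the derivation
  let P : G → J →₀ RR G := fun g => gof (rp (g : G ⧸ B)) • p ⟨_, mem_rp g⟩
  let D : RR G →+ (J →₀ RR G) := addR P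
  have hDg : ∀ g, D (gof g) = P g := fun g => addR_of P g
  let K : G → G ⧸ B → (J →₀ RR G) := fun h y => gof (rp (h • y)) • p ⟨_, mem_rp2 h y⟩
  have hstep : ∀ h g : G, P (h * g) = K h (g : G ⧸ B) + gof h • P g := by
    intro h g
    have h1 : (⟨_, mem_rp (h * g)⟩ : B) = ⟨_, mem_rp2 h (g : G ⧸ B)⟩ * ⟨_, mem_rp g⟩ := by
      apply Subtype.ext
      change (rp ((h * g : G) : G ⧸ B))⁻¹ * (h * g) =
        (rp (h • (g : G ⧸ B)))⁻¹ * (h * rp (g : G ⧸ B)) * ((rp (g : G ⧸ B))⁻¹ * g)
      have h2 : h • (g : G ⧸ B) = ((h * g : G) : G ⧸ B) := rfl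
      rw [h2]
      group
    change gof (rp ((h * g : G) : G ⧸ B)) • p ⟨_, mem_rp (h * g)⟩ = _
    rw [h1, hp, smul_add, smul_smul, ← gof_mul]
    change _ = gof (rp (h • (g : G ⧸ B))) • p ⟨_, mem_rp2 h (g : G ⧸ B)⟩ +
      gof h • gof (rp (g : G ⧸ B)) • p ⟨_, mem_rp g⟩
    rw [smul_smul, ← gof_mul]
    congr 3
    change rp ((h * g : G) : G ⧸ B) * ((rp (h • (g : G ⧸ B)))⁻¹ * (h * rp (g : G ⧸ B))) = _
    have h2 : h • (g : G ⧸ B) = ((h * g : G) : G ⧸ B) := rfl
    rw [h2]
    group
  have hlin1 : ∀ (h : G) (x : RR G), qq B x = 0 → D (gof h * x) = gof h • D x := by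
    intro h x hx
    let f : RR G →+ (J →₀ RR G) := D.comp (AddMonoidHom.mulLeft (gof h))
    let f' : RR G →+ (J →₀ RR G) := (fs B (K h)).comp (qq B).toAddMonoidHom +
      (DistribSMul.toAddMonoidHom (J →₀ RR G) (gof h)).comp D
    have h1 : f x = f' x := add_ext' (fun g => by
      change D (gof h * gof g) = fs B (K h) (qq B (gof g)) + gof h • D (gof g)
      rw [← gof_mul, hDg, hDg, hstep, fs_gof]) x
    have h2 : f' x = fs B (K h) (qq B x) + gof h • D x := rfl
    have h3 : f x = D (gof h * x) := rfl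
    rw [← h3, h1, h2, hx, map_zero, zero_add]
  have hlin : ∀ (r x : RR G), qq B x = 0 → D (r * x) = r • D x := by
    intro r x hx
    induction r using rr_ind with
    | h1 g => exact hlin1 g x hx
    | h2 a b ha hb => rw [add_mul, map_add, ha, hb, add_smul]
    | h3 a ha => rw [neg_mul, map_neg, ha, neg_smul]
  -- recovering the elements of the kernel
  let S : (J →₀ RR G) →+ RR G := Finsupp.liftAddHom fun j => AddMonoidHom.mulRight (u j)
  have hS : ∀ s : J →₀ RR G, S s = s.sum fun j r => r * u j := fun s => rfl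
  have hSs : ∀ (r : RR G) (s : J →₀ RR G), S (r • s) = r * S s := by
    intro r s
    rw [hS, hS, Finsupp.sum_smul_index' (by intro i; exact zero_mul _), Finsupp.mul_sum]
    exact Finsupp.sum_congr fun j _ => by rw [smul_eq_mul, mul_assoc]
  have hrec : ∀ x : RR G, S (D x) = x - secH B (qq B x) := by
    intro x
    let f : RR G →+ RR G := S.comp D
    let f' : RR G →+ RR G := AddMonoidHom.id _ - (secH B).comp (qq B).toAddMonoidHom
    exact add_ext' (f := f) (f' := f') (fun g => by
      change S (D (gof g)) = gof g - secH B (qq B (gof g))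
      rw [hDg, sec_qq_gof]
      change S (gof (rp (g : G ⧸ B)) • p ⟨_, mem_rp g⟩) = _
      rw [hSs, hS, hpu, mul_sub, mul_one, ← gof_mul, mul_inv_cancel_left]) x
  refine lift_allDer h (qq B) (qq_surj B) hG fun ψ hψ0 hψ1 hψ2 => ?_
  have hcol : ∀ (A : MR G n) (j : J) (i : Fin n),
      col A (fun k => D (ψ k) j) i = D (col A ψ i) j := by
    intro A j i
    change ∑ k, A i k • D (ψ k) j = D (∑ k, A i k • ψ k) j
    rw [map_sum, Finsupp.finsetSum_apply]
    refine Finset.sum_congr rfl fun k _ => ?_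
    rw [smul_eq_mul (A i k) (ψ k), hlin _ _ (hψ0 k), Finsupp.smul_apply]
  have hex : ∀ j : J, ∃ θ : Fin n → RR G, col d1 θ = fun k => D (ψ k) j := by
    intro j
    refine exact2_RR h _ ?_ ?_
    · funext i
      rw [hcol, hψ1]
    · funext i
      rw [hcol, hψ2]
      change D 0 j = 0
      rw [map_zero]
      rfl
  choose θ hθ using hex
  let T : Finset J := Finset.univ.biUnion fun k : Fin n => (D (ψ k)).support
  refine ⟨fun i => ∑ j ∈ T, θ j i * u j, fun i => ?_, ?_⟩
  · rw [map_sum]
    refine Finset.sum_eq_zero fun j _ => ?_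
    rw [← smul_eq_mul, map_smul, hu, smul_zero]
  · funext i
    change ∑ k, d1 i k • (∑ j ∈ T, θ j k * u j) = ψ i
    have h1 : ∀ k, d1 i k • (∑ j ∈ T, θ j k * u j) = ∑ j ∈ T, (d1 i k * θ j k) * u j := by
      intro k
      rw [smul_eq_mul, Finset.mul_sum]
      exact Finset.sum_congr rfl fun j _ => (mul_assoc _ _ _).symm
    rw [Finset.sum_congr rfl fun k _ => h1 k, Finset.sum_comm]
    have h2 : ∀ j, ∑ k, (d1 i k * θ j k) * u j = D (ψ i) j * u j := by
      intro j
      rw [← Finset.sum_mul]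
      congr 1
      exact congrFun (hθ j) i
    rw [Finset.sum_congr rfl fun j _ => h2 j]
    have h3 := hrec (ψ i)
    rw [hψ0, map_zero, sub_zero, hS] at h3
    conv_rhs => rw [← h3]
    symm
    refine Finset.sum_subset ?_ fun j _ hj => ?_
    · intro j hj
      exact Finset.mem_biUnion.2 ⟨i, Finset.mem_univ _, hj⟩
    · rw [Finsupp.notMem_support_iff.1 hj]
      exact zero_mul _

end

end Pool.Agent.J4H59.PJ
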